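import Pool.Agent.R777.Group

/-! Finitely differentiable actions of `SL(n,ℝ)` on `(ℝ^m, 0)` which are not linearizable. -/

open Filter Topology Set
open scoped ContDiff

namespace Pool.Agent.Results.MP_4f3c81_gt.FiniteSmoothness

/-- A `C^k`-action of `SL(n,ℝ)` on `(ℝ^m, 0)`: an action `a` with jointly continuous action map,
such that every group element acts by a `C^k` map (hence by a `C^k` diffeomorphism, the inverse
of `a g` being `a g⁻¹`) and fixes the origin. -/
structure IsCkAction (n m k : ℕ)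
    (a : Matrix.SpecialLinearGroup (Fin n) ℝ → EuclideanSpace ℝ (Fin m) →
      EuclideanSpace ℝ (Fin m)) : Prop where
  one_act : ∀ x, a 1 x = x
  mul_act : ∀ g h x, a (g * h) x = a g (a h x)
  continuous_act : Continuous fun p : Matrix.SpecialLinearGroup (Fin n) ℝ ×
    EuclideanSpace ℝ (Fin m) => a p.1 p.2
  contDiff_act : ∀ g, ContDiff ℝ k (a g)
  fixes_zero : ∀ g, a g 0 = 0

/-- The action `a` is `C^k`-linearizable near the origin: there are open neighbourhoods `V ⊆ U` of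
the origin (`U` is the source of `φ`), a neighbourhood `N` of the identity with `N·V ⊆ U`, and a
`C^k` diffeomorphism `φ` of `U` onto an open set (the target of `φ`), with `φ(0) = 0`, such that
`φ(g·x) = ρ(g) φ(x)` for `g ∈ N`, `x ∈ V`, where `ρ(g)` is the derivative of `g` at the origin. -/
def IsCkLinearizable (n m k : ℕ)
    (a : Matrix.SpecialLinearGroup (Fin n) ℝ → EuclideanSpace ℝ (Fin m) →
      EuclideanSpace ℝ (Fin m)) : Prop :=
  ∃ (V : Set (EuclideanSpace ℝ (Fin m))) (N : Set (Matrix.SpecialLinearGroup (Fin n) ℝ))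
    (φ : OpenPartialHomeomorph (EuclideanSpace ℝ (Fin m)) (EuclideanSpace ℝ (Fin m))),
    IsOpen V ∧ (0 : EuclideanSpace ℝ (Fin m)) ∈ V ∧ V ⊆ φ.source ∧
    N ∈ 𝓝 (1 : Matrix.SpecialLinearGroup (Fin n) ℝ) ∧
    (∀ g ∈ N, ∀ x ∈ V, a g x ∈ φ.source) ∧
    φ 0 = 0 ∧ ContDiffOn ℝ k φ φ.source ∧ ContDiffOn ℝ k φ.symm φ.target ∧
    ∀ g ∈ N, ∀ x ∈ V, φ (a g x) = fderiv ℝ (a g) 0 (φ x)

open Pool.Agent.R777 in
/-- Core statement, for `SL(n+2,ℝ)` acting on `ℝ^(n+2+d)` and smoothness `j+1`. -/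
theorem core (n d j : ℕ) (h : 0 < d ∨ j = 0) :
    ∃ a, IsCkAction (n + 2) (n + 2 + d) (j + 1) a ∧
      ¬ IsCkLinearizable (n + 2) (n + 2 + d) (j + 1) a := by
  have : Nontrivial (EuclideanSpace ℝ (Fin (n + 2 + d))) := ⟨⟨ee n d, 0, ee_ne_zero⟩⟩
  obtain ⟨ε, hε, hlip⟩ := exists_eps (E := EuclideanSpace ℝ (Fin (n + 2 + d))) PP (ll (n + 2) d) j
  set V : EuclideanSpace ℝ (Fin (n + 2 + d)) → EuclideanSpace ℝ (Fin (n + 2 + d)) :=
    fun z => ε • V0 PP (ll (n + 2) d) j z with hV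
  have hV0 : V 0 = 0 := by simp [hV, V0_zero]
  have hsm : ∀ z, z ≠ 0 → ContDiffAt ℝ ∞ V z :=
    fun z hz => (V0_contDiffAt (E := EuclideanSpace ℝ (Fin (n + 2 + d))) PP (ll (n + 2) d) j
      hz).const_smul ε
  have hcls : ∀ k, Cls false k 1 V := by
    intro k
    have h1 := (cls_V0 (E := EuclideanSpace ℝ (Fin (n + 2 + d))) PP (ll (n + 2) d) j k).clm_comp
      (ε • ContinuousLinearMap.id ℝ _)
    exact Cls.weaken h1 (by push_cast; omega)
  have hΦ0 : Phi hlip 0 = 0 := Phi_zero (V := V) hlip hV0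
  have hψ0 : (Phi hlip).symm 0 = 0 := psi_zero (V := V) hlip hV0
  -- the defect of equivariance of the perturbation is small of order `j + 1`
  have hdef : ∀ g : Matrix.SpecialLinearGroup (Fin (n + 2)) ℝ,
      Cls true (j + 1) ((j + 1 : ℕ) : ℤ) (fun z => V (Teq (d := d) g z) - Teq (d := d) g (V z)) := by
    intro g
    have h1 := Cls.smul (cls_lam_comp_sub (Teq (d := d) g) (j + 1))
      ((cls_core (E := EuclideanSpace ℝ (Fin (n + 2 + d))) PP (ll (n + 2) d) j (j + 1)).clm_comp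
        (ε • TT g))
    simp only [Bool.or_false, zero_add] at h1
    refine h1.congr ?_
    have hb1 := nhdsWithin_le_nhds (s := {(0 : EuclideanSpace ℝ (Fin (n + 2 + d)))}ᶜ)
      (bump_eventually_one (E := EuclideanSpace ℝ (Fin (n + 2 + d))))
    have hb2 := (tendsto_clm_equiv (Teq (d := d) g)).eventually hb1
    filter_upwards [hb1, hb2] with z hz hz'
    have h2 : ll (n + 2) d (TT g z) = ll (n + 2) d z := ll_TT g z
    have h3 : PP (TT g z) = TT g (PP z) := PP_TT g z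
    simp only [hV, V0, Teq_apply] at hz hz' ⊢
    rw [hz, hz', h2, h3]
    simp only [one_mul, map_smul, _root_.smul_apply]
    module
  have hconj := fun g : Matrix.SpecialLinearGroup (Fin (n + 2)) ℝ =>
    conj_contDiff (V := V) hlip hV0 hsm hcls (Teq (d := d) g) (hdef g)
  refine ⟨fun g x => Phi hlip (TT g ((Phi hlip).symm x)), ⟨?_, ?_, ?_, ?_, ?_⟩, ?_⟩
  · intro x
    simp only [TT_one, Homeomorph.apply_symm_apply]
  · intro g g' x
    simp only [TT_mul, Homeomorph.symm_apply_apply]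
  · have h1 : Continuous fun p : Matrix.SpecialLinearGroup (Fin (n + 2)) ℝ ×
        EuclideanSpace ℝ (Fin (n + 2 + d)) => (Phi hlip).symm p.2 :=
      (Phi hlip).symm.continuous.comp continuous_snd
    have h2 := Continuous.comp (g := fun p : Matrix.SpecialLinearGroup (Fin (n + 2)) ℝ ×
        EuclideanSpace ℝ (Fin (n + 2 + d)) => TT (d := d) p.1 p.2)
      (f := fun p : Matrix.SpecialLinearGroup (Fin (n + 2)) ℝ ×
        EuclideanSpace ℝ (Fin (n + 2 + d)) => (p.1, (Phi hlip).symm p.2))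
      TT_continuous (continuous_fst.prodMk h1)
    exact Continuous.comp (g := Phi hlip) (Phi hlip).continuous h2
  · intro g
    exact (hconj g).1
  · intro g
    simp only [hψ0, map_zero, hΦ0]
  · rintro ⟨V', N, φ, hVo, hV'0, hVU, hN, hNV, hφ0, hφ, hφ', heq⟩
    -- the group elements `DD (-θ)`, `θ ≥ 0` small, are in `N`
    obtain ⟨δ, hδ, hδN⟩ : ∃ δ > 0, ∀ θ : ℝ, 0 ≤ θ → θ ≤ δ → DD n (-θ) ∈ N := by
      have h1 : Tendsto (fun θ : ℝ => DD n (-θ)) (𝓝 0) (𝓝 1) := by
        have h2 : Continuous fun θ : ℝ => DD n (-θ) := DD_continuous.comp continuous_neg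
        have h3 := h2.tendsto 0
        rwa [neg_zero, DD_zero] at h3
      obtain ⟨δ, hδ, hball⟩ := Metric.eventually_nhds_iff.1 (h1.eventually hN)
      refine ⟨δ / 2, by positivity, fun θ h1 h2 => hball ?_⟩
      rw [Real.dist_eq, sub_zero, abs_of_nonneg h1]
      linarith
    have h0s : (0 : EuclideanSpace ℝ (Fin (n + 2 + d))) ∈ φ.source := hVU hV'0
    have h0t : (0 : EuclideanSpace ℝ (Fin (n + 2 + d))) ∈ φ.target := by
      have := φ.map_source h0s
      rwa [hφ0] at this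
    refine no_linearization (E := EuclideanSpace ℝ (Fin (n + 2 + d))) PP (ll (n + 2) d) j hε hlip
      (ee n d) (tau (n + 2) d) PP_ee PP_tau ll_ee (fun r => ll_tau h r) ee_ne_zero
      (fun θ => TT (DD n θ)) _ _ _ (fun θ => TT_DD θ) (fun a b x => ?_) (fun θ => TT_DD_ee θ)
      (fun θ => TT_tau _) φ φ.symm hφ0 ?_ ?_ ?_ hδ ((Phi hlip) ⁻¹' V') ?_ ?_
    · simp only [DD_add, TT_mul]
    · exact (hφ 0 h0s).contDiffAt (φ.open_source.mem_nhds h0s)
    · exact (hφ' 0 h0t).contDiffAt (φ.open_target.mem_nhds h0t)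
    · filter_upwards [φ.open_source.mem_nhds h0s] with x hx
      exact φ.left_inv hx
    · refine (Phi hlip).continuous.continuousAt.preimage_mem_nhds ?_
      rw [hΦ0]
      exact hVo.mem_nhds hV'0
    · intro θ hθ hθ' z hz
      have h1 := heq (DD n (-θ)) (hδN θ hθ hθ') (Phi hlip z) hz
      have h2 : fderiv ℝ (fun x => Phi hlip (TT (DD n (-θ)) ((Phi hlip).symm x))) 0 =
          TT (DD n (-θ)) := (hconj (DD n (-θ))).2.fderiv
      rw [h2] at h1
      simpa only [Homeomorph.symm_apply_apply] using h1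

/-- For all `n ≥ 2`, `m ≥ n` and every finite `k ≥ 1` with `m > n` or `k = 1` there is a
`C^k`-action of `SL(n,ℝ)` on `(ℝ^m, 0)` which is not `C^k`-linearizable. -/
theorem result (n m k : ℕ) (hn : 2 ≤ n) (hnm : n ≤ m) (hk : 1 ≤ k) (h : n < m ∨ k = 1) :
    ∃ a : Matrix.SpecialLinearGroup (Fin n) ℝ → EuclideanSpace ℝ (Fin m) →
      EuclideanSpace ℝ (Fin m), IsCkAction n m k a ∧ ¬ IsCkLinearizable n m k a := by
  obtain ⟨n, rfl⟩ : ∃ n', n = n' + 2 := ⟨n - 2, by omega⟩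
  obtain ⟨d, rfl⟩ : ∃ d, m = n + 2 + d := ⟨m - (n + 2), by omega⟩
  obtain ⟨j, rfl⟩ : ∃ j, k = j + 1 := ⟨k - 1, by omega⟩
  exact core n d j (by omega)

end Pool.Agent.Results.MP_4f3c81_gt.FiniteSmoothness
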